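import Mathlib
import Pool.Agent.T2H92.SD.Iff
import Pool.Agent.T2H92.SD.Td
import Pool.Agent.H283R2.DR.TaskG

/-!
# Generic rigidity is local and first-order on graphs of bounded shrub-depth

A family of disjoint pieces of a graph is *homogeneous* if the pieces are isomorphic, have the same
neighbours outside the pieces, and any two of them are linked in the same way. In a sufficiently
large homogeneous family any piece can be deleted or restored without changing the generic
rigidity in `ℝ^d`. Graphs of bounded shrub-depth (for example, of bounded tree-depth) which are
large contain large homogeneous families. So, in a generically rigid graph of bounded shrub-depth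
any two vertices are contained in a generically rigid induced subgraph of (explicitly) bounded size,
and on these graphs generic rigidity is a first-order property.

The idea of the proof of the reduction. Almost all the pieces can be made sparse without changing
the motions: the links between the pieces, and the edges to the outside, are replaced by boundedly
many ones. In the space of the infinitesimal motions, modulo the motions of the rest, the pieces
are then independent and of the same dimension; if this dimension is not zero, the graph has too
many motions to be rigid.
-/

set_option autoImplicit false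

namespace Pool.Agent.Results.MP_37c7bf_co.BoundedShrubDepth

open Pool.Agent.T2H92.SD Pool.Agent.H283R2.DR

/-- Rigidity is local on the graphs which have a tree model of depth `t` with `m` labels. -/
theorem local_iff {d t m : ℕ} {V : Type} [Fintype V] {G : SimpleGraph V}
    (hG : HasTreeModel t m G) : GenRigid d G ↔
      ∀ u v : V, ∃ U : Finset V, u ∈ U ∧ v ∈ U ∧ U.card ≤ bnd d m t ∧
        GenRigid d (G.induce (U : Set V)) := by
  obtain ⟨addr, lab, S, hM⟩ := hG
  refine ⟨fun h u v => exists_small hM h u v, fun h => ?_⟩
  obtain ⟨p, hp⟩ := exists_gen V d
  rw [hp.genRigid_iff]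
  refine rigid_of_pairs hp fun u v => ?_
  obtain ⟨U, hu, hv, -, hU⟩ := h u v
  exact ⟨U, hu, hv, (hp.genRigid_induce_iff G _).1 hU⟩

/-- **Generic rigidity on graphs of bounded shrub-depth.** Let `d` be a dimension.

(1) (Reduction.) Let `G` be any finite graph with a homogeneous family of `N` disjoint pieces, with
`c ≥ 1` vertices each. If `N ≥ (d + 1)² + d ((d + 1)² c + c (d + 1)) + d + 3`, then `G` is
generically rigid in `ℝ^d` if and only if `G` without one of the pieces is generically rigid.

(2) Let `G` be a finite graph which has a tree model of depth `t` with `m` labels. Then `G` is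
generically rigid in `ℝ^d` if and only if any two vertices of `G` are contained in a set of at most
`bnd d m t` vertices which induces a generically rigid subgraph.

(3) For all `t` and `m` there is a sentence of the first-order language of graphs which holds
exactly in the generically rigid graphs, for all finite graphs which have a tree model of depth `t`
with `m` labels.

(4) Graphs of tree-depth at most `t` have a tree model of depth `t` with `(t + 1) 2 ^ (t + 1)`
labels. So (2) and (3) hold for them. -/
theorem result (d : ℕ) :
    (∀ (V : Type) [Fintype V] (G : SimpleGraph V) (c N : ℕ) (e : Fin N → Fin c → V), 1 ≤ c →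
      Homog G e → (d + 1) ^ 2 + d * ((d + 1) ^ 2 * c + c * (d + 1)) + d + 3 ≤ N →
      ∀ i, (GenRigid d G ↔ GenRigid d (G.induce {v | ∀ a, v ≠ e i a}))) ∧
    (∀ (t m : ℕ) (V : Type) [Fintype V] (G : SimpleGraph V), HasTreeModel t m G →
      (GenRigid d G ↔ ∀ u v : V, ∃ U : Finset V, u ∈ U ∧ v ∈ U ∧ U.card ≤ bnd d m t ∧
        GenRigid d (G.induce (U : Set V)))) ∧
    (∀ t m : ℕ, ∃ φ : FirstOrder.Language.graph.Sentence,
      ∀ (V : Type) [Fintype V] (G : SimpleGraph V), HasTreeModel t m G →
      (@FirstOrder.Language.Sentence.Realize FirstOrder.Language.graph V G.structure φ ↔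
        GenRigid d G)) ∧
    (∀ (t : ℕ) (V : Type) (G : SimpleGraph V), TreedepthLE t G →
      HasTreeModel t ((t + 1) * 2 ^ (t + 1)) G) := by
  refine ⟨?_, ?_, ?_, ?_⟩
  · intro V _ G c N e hc hH hN i
    have : Nonempty (Fin c) := ⟨⟨0, hc⟩⟩
    exact delete_iff hH (by rw [Fintype.card_fin, Fintype.card_fin]; exact hN) i
  · intro t m V _ G hG
    exact local_iff hG
  · intro t m
    obtain ⟨φ, hφ⟩ := exists_sentence d (bnd d m t)
    exact ⟨φ, fun V _ G hG => (hφ V G).trans (local_iff hG).symm⟩
  · intro t V G hG
    exact hasTreeModel_of_treedepth hG

end Pool.Agent.Results.MP_37c7bf_co.BoundedShrubDepth
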