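import Mathlib
import Pool.Agent.T2H61.CP.CartRank

/-!
# Generic rigidity in space of Cartesian products without rigid factors

The Cartesian product of three connected graphs which contain cycles is generically rigid in `ℝ³`.
For three connected factors with at most one cycle each, and for any number of factors which are
edges or connected graphs with exactly one cycle, the generic rank is `min (|E|, 3 n - 6)`. In
particular the graph of the `k`-dimensional cube is generically rigid in `ℝ³` if and only if
`k ≥ 6`, and a product of `k` cycles if and only if `k ≥ 3` (for `n ≥ 4`).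

The proof: frameworks whose vertices have two, then one prescribed normals (`T2H61/CP/Sl.lean`), the
layers of the product being close to each other; the product with a cycle of any length and with
further vertices is reduced to the product with a triangle (`T2H61/CP/Step.lean`); the product of
three triangles is checked by the kernel modulo 101 (`T2H61/CP/Base.lean`); independence when a
factor is a tree is obtained from seven disjoint copies in a rigid product with at most `3 n` edges
(`T2H61/CP/Main.lean`).
-/

set_option autoImplicit false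

namespace Pool.Agent.Results.MP_37c7bf_co.CartesianProducts

open Pool.Agent.H789R5 Pool.Agent.H283R2.DR SimpleGraph

/-- The Cartesian product of a family of graphs: two points are adjacent when they differ in exactly
one coordinate and are adjacent there. -/
def cartesianProduct {ι : Type} {V : ι → Type} (G : ∀ i, SimpleGraph (V i)) :
    SimpleGraph (∀ i, V i) where
  Adj x y := ∃ i, (G i).Adj (x i) (y i) ∧ ∀ j, j ≠ i → x j = y j
  symm := ⟨fun _ _ ⟨i, h, h'⟩ => ⟨i, h.symm, fun j hj => (h' j hj).symm⟩⟩
  loopless := ⟨fun _ ⟨i, h, _⟩ => (G i).loopless.irrefl _ h⟩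

/-- (1) The Cartesian product of three finite connected graphs, each of which contains a cycle, is
generically rigid in `ℝ³`.

(2) Let `G₁`, `G₂`, `G₃` be finite connected graphs with at most as many edges as vertices (each is
a tree or has exactly one cycle). If their Cartesian product has `n ≥ 3` vertices then its generic
rank in `ℝ³` is the minimum of its number of edges and `3 n - 6`.

Let `G i` (`i ∈ ι`) be a finite family of finite connected graphs with at least two vertices each,
`c` of which contain a cycle, the other `t` being trees.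

(3) If `2 c + t ≥ 6` then the Cartesian product of the family is generically rigid in `ℝ³`.

(4) Suppose that each graph of the family has two vertices or has exactly as many edges as vertices
(that is, exactly one cycle). If the product has `n ≥ 3` vertices then its generic rank in `ℝ³` is
the minimum of its number of edges and `3 n - 6`; and if `n ≥ 4` then it is generically rigid in
`ℝ³` if and only if `2 c + t ≥ 6`. -/
theorem result :
    (∀ (V₁ V₂ V₃ : Type) [Fintype V₁] [Fintype V₂] [Fintype V₃] (G₁ : SimpleGraph V₁)
      (G₂ : SimpleGraph V₂) (G₃ : SimpleGraph V₃),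
      G₁.Connected → G₂.Connected → G₃.Connected →
      (¬ G₁.IsAcyclic → ¬ G₂.IsAcyclic → ¬ G₃.IsAcyclic → GenRigid 3 (G₁ □ (G₂ □ G₃))) ∧
      (G₁.edgeSet.ncard ≤ Fintype.card V₁ → G₂.edgeSet.ncard ≤ Fintype.card V₂ →
        G₃.edgeSet.ncard ≤ Fintype.card V₃ → 3 ≤ Fintype.card (V₁ × (V₂ × V₃)) →
        genRank 3 (G₁ □ (G₂ □ G₃)) =
          min (G₁ □ (G₂ □ G₃)).edgeSet.ncard (3 * Fintype.card (V₁ × (V₂ × V₃)) - 6))) ∧
    (∀ (ι : Type) [Fintype ι] [DecidableEq ι] (V : ι → Type) [∀ i, Fintype (V i)]
      (G : ∀ i, SimpleGraph (V i)) (c t : ℕ),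
      (∀ i, (G i).Connected) → (∀ i, 2 ≤ Fintype.card (V i)) →
      c = Nat.card {i // ¬ (G i).IsAcyclic} → t = Nat.card {i // (G i).IsAcyclic} →
      (6 ≤ 2 * c + t → GenRigid 3 (cartesianProduct G)) ∧
      ((∀ i, Fintype.card (V i) = 2 ∨ (G i).edgeSet.ncard = Fintype.card (V i)) →
        (3 ≤ Fintype.card (∀ i, V i) → genRank 3 (cartesianProduct G) =
          min (cartesianProduct G).edgeSet.ncard (3 * Fintype.card (∀ i, V i) - 6)) ∧
        (4 ≤ Fintype.card (∀ i, V i) →
          (GenRigid 3 (cartesianProduct G) ↔ 6 ≤ 2 * c + t)))) := by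
  refine ⟨fun V₁ V₂ V₃ _ _ _ G₁ G₂ G₃ h1 h2 h3 => ⟨T2H61.CP.rigid3 h1 h2 h3, fun e1 e2 e3 hn => ?_⟩,
    fun ι _ _ V _ G c t hG h2 hc ht => ⟨fun h => ?_, fun hT => ⟨fun hn => ?_, fun hn => ?_⟩⟩⟩
  · exact T2H61.CP.rank3 h1 h2 h3 e1 e2 e3 hn
  · exact T2H61.CP.rigid_cart G hG (fun i => by rw [Nat.card_eq_fintype_card]; exact h2 i)
      (by rw [T2H61.CP.sum_wt, ← hc, ← ht]; exact h)
  · exact T2H61.CP.rank_cart G (fun i => T2H61.CP.thin_of (hG i) (hT i)) hn
  · rw [hc, ht, ← T2H61.CP.sum_wt]
    exact T2H61.CP.rigid_iff_cart G (fun i => T2H61.CP.thin_of (hG i) (hT i)) hn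

end Pool.Agent.Results.MP_37c7bf_co.CartesianProducts
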