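import Mathlib
import Pool.Agent.T2H61.PP.Nor

/-!
# Generic rigidity in space of Cartesian products with a graph which is rigid in the plane

Let `G` and `X` be graphs which are generically rigid in the plane, with `m ≥ 3` and `n ≥ 3`
vertices, and let `r₃` be the generic rank in space. Then the generic rank in space of the Cartesian
product `G □ X` is `min (3 m n - 6) (n r₃(G) + m r₃(X))`. The product is generically rigid in space
except if both graphs are minimally rigid in the plane and `(m - 3) (n - 3) ≤ 2`.

If `G` is connected and contains a cycle, `X₀` is a subgraph of `X`, both are generically rigid in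
the plane, and `G □ X₀` is generically rigid in space, then so is `G □ X`.

For every finite graph `X` the product `G □ X` is generically rigid in space for all connected graphs
`G` which contain a cycle as soon as this holds for the triangle and for the triangle with a pendant
edge. If `X` is generically rigid in the plane then this is the case if and only if the generic rank
of `X` in space is at least twice the number of vertices.

The proof uses Henneberg reductions (with the combinatorial part of Laman's theorem of the library
`H632R2/Laman`), certificates for 22 products with at most 25 vertices, and for products with a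
triangle the theorem on products of the starting library `Y530/TN`, `Y532/TN`.
-/

set_option autoImplicit false

namespace Pool.Agent.Results.MP_37c7bf_co.PlaneRigidProducts

open SimpleGraph Pool.Agent.H283R2.DR Pool.Agent.H789R5 Pool.Agent.T2H61.PP

/-- (1) Let `G` and `X` be finite graphs with at least three vertices each which are generically
rigid in the plane. The generic rank of `G □ X` in space is the smaller one of `3 |V| |W| - 6` and
`|W| r₃(G) + |V| r₃(X)`; the graph `G □ X` is generically rigid in space if and only if
`3 ≤ (|V| - 3) (|W| - 3)` or `G` has more than `2 |V| - 3` edges or `X` has more than `2 |W| - 3`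
edges.

(2) Let `G` be a finite connected graph which contains a cycle, let `X₀` be a finite graph with at
least two vertices which is a subgraph of the finite graph `X` (via `f`), both generically rigid in
the plane. If `G □ X₀` is generically rigid in space then so is `G □ X`.

(3) Let `X` be a finite graph. The graphs `G □ X` are generically rigid in space for all finite
connected graphs `G` which contain a cycle if and only if this is so for the triangle and for the
graph with vertices `0, 1, 2, 3` and edges `01`, `02`, `12`, `03`.

(4) Let `X` be a finite graph which is generically rigid in the plane. The graphs `G □ X` are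
generically rigid in space for all finite connected graphs `G` which contain a cycle if and only if
`2 |W| ≤ r₃(X)`. -/
theorem result :
    (∀ (V W : Type) [Fintype V] [Fintype W] (G : SimpleGraph V) (X : SimpleGraph W),
      GenRigid 2 G → GenRigid 2 X → 3 ≤ Fintype.card V → 3 ≤ Fintype.card W →
      genRank 3 (G □ X) = min (3 * (Fintype.card V * Fintype.card W) - 6)
        (Fintype.card W * genRank 3 G + Fintype.card V * genRank 3 X) ∧
      (GenRigid 3 (G □ X) ↔ 3 ≤ (Fintype.card V - 3) * (Fintype.card W - 3) ∨
        2 * Fintype.card V - 3 < G.edgeSet.ncard ∨ 2 * Fintype.card W - 3 < X.edgeSet.ncard)) ∧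
    (∀ (V U W : Type) [Finite V] [Fintype U] [Fintype W] (G : SimpleGraph V)
      (X₀ : SimpleGraph U) (X : SimpleGraph W) (f : U ↪ W), G.Connected → ¬ G.IsAcyclic →
      2 ≤ Fintype.card U → GenRigid 2 X₀ → GenRigid 2 X → X₀.map f ≤ X →
      GenRigid 3 (G □ X₀) → GenRigid 3 (G □ X)) ∧
    (∀ (W : Type) [Fintype W] (X : SimpleGraph W),
      (∀ (V : Type) [Finite V] (G : SimpleGraph V), G.Connected → ¬ G.IsAcyclic →
        GenRigid 3 (G □ X)) ↔
      GenRigid 3 ((⊤ : SimpleGraph (Fin 3)) □ X) ∧
        GenRigid 3 (SimpleGraph.fromEdgeSet
          {s((0 : Fin 4), 1), s(0, 2), s(1, 2), s(0, 3)} □ X)) ∧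
    (∀ (W : Type) [Fintype W] (X : SimpleGraph W), GenRigid 2 X →
      ((∀ (V : Type) [Finite V] (G : SimpleGraph V), G.Connected → ¬ G.IsAcyclic →
        GenRigid 3 (G □ X)) ↔ 2 * Fintype.card W ≤ genRank 3 X)) := by
  classical
  refine ⟨?_, ?_, ?_, ?_⟩
  · intro V W _ _ G X hG hX h3 h3'
    have h1 := rank_prod hG hX h3 h3'
    refine ⟨h1, ?_⟩
    exact rigid_prod_iff hG hX h3 h3'
  · intro V U W _ _ _ G X₀ X f hG hc h2 h0 hX hf h
    exact transfer hG hc h2 h0 hX f hf h
  · intro W _ X
    rw [← paw_eq]
    exact test X
  · intro W _ X hX
    exact all_cyclic hX

end Pool.Agent.Results.MP_37c7bf_co.PlaneRigidProducts
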