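import Mathlib
import Pool.Agent.T2H92.CW.Exp
import Pool.Agent.Results.MP_37c7bf_co.SmallTreewidth

/-!
# Generic rigidity of graphs of small clique-width

Every graph `G` of clique-width (or even module-width) at most `w` has a spanning subgraph `H` of
treewidth at most `2 (d + 1)² w` which has the same closure as `G` in the generic rigidity matroid
of `ℝ^d`. So the explicit set `placements d n (2 (d + 1)² w)` of the theorem on graphs of small
treewidth is a black-box test for the generic rigidity in `ℝ^d` of all graphs of clique-width at
most `w`; these graphs may be dense.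

For the proof, the vertices below a node of the hierarchical partition which gives the clique-width
fall into at most `w` classes with the same outer neighbours. At most `d² + d` vertices of each class
are visible in the bag of the node, and for each class at most `d + 1` outer neighbours are selected.
The edges between two visible vertices, and those between a vertex and its selected outer neighbours,
are kept. A vertex which is not visible is a part of a rigid body, which contains its selected outer
neighbours and the visible vertices of its class (a complete bipartite graph `K_{d+1,d²+d}`); two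
such bodies are linked in the same way. So the edges which are not kept are redundant.
-/

set_option autoImplicit false

namespace Pool.Agent.Results.MP_37c7bf_co.SmallCliquewidth

open Pool.Agent.T2H92.CW Pool.Agent.H283R2.DR Pool.Agent.H789R5
open Pool.Agent.Results.MP_37c7bf_co.SmallTreewidth (placements)

/-- The sparse subgraph has the same rank together with any further edges. -/
theorem exists_same_closure {d : ℕ} (hd : 1 ≤ d) {V : Type} [DecidableEq V] [Fintype V]
    {G : SimpleGraph V} {w : ℕ} (hG : ModuleWidthLE w G) :
    ∃ H ≤ G, TreewidthLE (2 * (d + 1) ^ 2 * w) H ∧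
      ∀ F : SimpleGraph V, genRank d (H ⊔ F) = genRank d (G ⊔ F) := by
  obtain ⟨T, hT, hTV, hw⟩ := hG
  obtain ⟨H, hH, htw, hmot⟩ := exists_sparse hd hT hTV hw
  refine ⟨H, hH, htw, fun F => ?_⟩
  obtain ⟨p, hp⟩ := exists_mg V d
  have h1 := genRank_add hp (H ⊔ F)
  have h2 := genRank_add hp (G ⊔ F)
  have h3 : mo (H ⊔ F) p = mo (G ⊔ F) p := by
    unfold mo
    have : Mot (H ⊔ F) p = Mot (G ⊔ F) p := by
      apply le_antisymm
      · intro q hq
        rw [mem_mot] at hq ⊢
        have h4 := hmot p hp.toGen q fun u v h => hq u v (Or.inl h)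
        rintro u v (h | h)
        · exact h4 u v h
        · exact hq u v (Or.inr h)
      · exact mot_anti (sup_le_sup_right hH F) p
    rw [this]
  omega

/-- **Generic rigidity of graphs of small clique-width.** Let `d ≥ 1`.
(1) The module-width of a graph is at most its clique-width.
(2) Every graph `G` of module-width at most `w` has a spanning subgraph `H` of treewidth at most
`2 (d + 1)² w` with the same closure in the generic rigidity matroid of `ℝ^d`: for every graph `F` on
the same vertices the graphs `H ∪ F` and `G ∪ F` have the same rank.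
(3) Put `k = 2 (d + 1)² w`. The explicit set `placements d n k` consists of at most
`(2nd + 2) ^ (35 d (k + 1) (⌊log₂ n²⌋ + 1) (2 ⌈log₂ nd⌉ + 1))` integer placements of `n` vertices in
`ℝ^d`, with explicitly bounded coordinates. For every graph `G` of module-width at most `w` on the
`n` vertices, the rank of `G` in the generic `d`-dimensional rigidity matroid is the largest rank of
the rigidity matrix of `G` at these placements; so, for `n ≥ d`, the graph is generically rigid in
`ℝ^d` if and only if the rank is at least `dn - d (d + 1) / 2` at one of them. -/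
theorem result (d : ℕ) (hd : 1 ≤ d) :
    (∀ (n w : ℕ) (G : SimpleGraph (Fin n)), CliqueWidthLE w G → ModuleWidthLE w G) ∧
    (∀ (n w : ℕ) (G : SimpleGraph (Fin n)), ModuleWidthLE w G →
      ∃ H ≤ G, TreewidthLE (2 * (d + 1) ^ 2 * w) H ∧
        ∀ F : SimpleGraph (Fin n), genRank d (H ⊔ F) = genRank d (G ⊔ F)) ∧
    (∀ n w k : ℕ, k = 2 * (d + 1) ^ 2 * w →
      (placements d n k).card ≤ ((2 * n * d + 2) ^
        (35 * d * (k + 1) * (Nat.log 2 (n ^ 2) + 1))) ^ (2 * Nat.clog 2 (n * d) + 1) ∧
      (∀ q ∈ placements d n k, ∀ v i, |q v i| ≤ ((((2 * n * d + 2) ^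
        (35 * d * (k + 1) * (Nat.log 2 (n ^ 2) + 1))) ^ ((2 * n * d + 2) ^
          (35 * d * (k + 1) * (Nat.log 2 (n ^ 2) + 1)) * Nat.clog 2 (n * d) + 1) : ℕ) : ℤ)) ∧
      ∀ G : SimpleGraph (Fin n), ModuleWidthLE w G →
        (∀ q ∈ placements d n k,
          (rigidityMatrix G (fun v i => (q v i : ℝ))).rank ≤ genRank d G) ∧
        (∃ q ∈ placements d n k,
          (rigidityMatrix G (fun v i => (q v i : ℝ))).rank = genRank d G) ∧
        (d ≤ n → (GenRigid d G ↔ ∃ q ∈ placements d n k,
          d * n ≤ (rigidityMatrix G (fun v i => (q v i : ℝ))).rank + d * (d + 1) / 2))) := by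
  classical
  refine ⟨fun n w G h => moduleWidth_of_cliqueWidth h, fun n w G h => exists_same_closure hd h, ?_⟩
  rintro n w k rfl
  obtain ⟨h1, h2, h3⟩ := SmallTreewidth.result d n (2 * (d + 1) ^ 2 * w) hd
  refine ⟨h1, h2, fun G hG => ?_⟩
  obtain ⟨H, hH, htw, hF⟩ := exists_same_closure hd hG
  have hHG : genRank d H = genRank d G := by
    have := hF ⊥
    rwa [sup_bot_eq, sup_bot_eq] at this
  obtain ⟨-, ⟨q, hq, hqe⟩, -⟩ := h3 H htw
  have hle : (rigidityMatrix H (fun v i => (q v i : ℝ))).rank ≤
      (rigidityMatrix G (fun v i => (q v i : ℝ))).rank := by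
    have e1 := rank_add_mo H (fun v i => (q v i : ℝ))
    have e2 := rank_add_mo G (fun v i => (q v i : ℝ))
    have e3 := mo_anti hH (fun v i => (q v i : ℝ))
    omega
  have hge := SmallTreewidth.rank_le_genRank G (fun v i => (q v i : ℝ))
  have hqG : (rigidityMatrix G (fun v i => (q v i : ℝ))).rank = genRank d G := by omega
  refine ⟨fun q _ => SmallTreewidth.rank_le_genRank G _, ⟨q, hq, hqG⟩, fun hdn => ?_⟩
  obtain ⟨p, hp⟩ := exists_mg (Fin n) d
  have hgr := genRank_add hp G
  rw [Fintype.card_fin] at hgr
  rw [genRigid_iff hp (by rw [Fintype.card_fin]; exact hdn)]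
  constructor
  · intro h
    exact ⟨q, hq, by omega⟩
  · rintro ⟨q', -, hq'⟩
    have := SmallTreewidth.rank_le_genRank G (fun v i => (q' v i : ℝ))
    omega

end Pool.Agent.Results.MP_37c7bf_co.SmallCliquewidth
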